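import Pool.Agent.H34.WM.StmB

set_option autoImplicit false

/-!
# Eigenfunctions of polygonal billiards: convexity of the energies (W5')
-/

namespace H36.WM.Conv

open MeasureTheory Set Metric Filter Topology H82.Bil H87.BP H87.VA H82.ER H9.WM H34.WM

open scoped ComplexConjugate ENNReal NNReal

private lemma coeff_eq {g : Dir → ℝ} (n : ℕ) :
    fourierCoeff (fun θ : Dir => (g θ : ℂ)) (-(n : ℤ)) =
      (2 * Real.pi)⁻¹ • ∫ θ : Dir, e θ ^ n * (g θ : ℂ) := by
  have h1 : ∀ θ : Dir, fourier (T := 2 * Real.pi) (n : ℤ) θ = e θ ^ n := by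
    intro θ
    rw [fourier_apply, natCast_zsmul]
    induction n with
    | zero => simp
    | succ n ih => rw [succ_nsmul, AddCircle.toCircle_add, Circle.coe_mul, ih, pow_succ]; rfl
  unfold fourierCoeff
  rw [AddCircle.integral_haarAddCircle, neg_neg]
  simp_rw [h1, smul_eq_mul]

private lemma parseval {g : Dir → ℝ} (hg : MemLp g 2) :
    HasSum (fun i : ℤ => ‖fourierCoeff (fun θ : Dir => (g θ : ℂ)) i‖ ^ 2)
      (∫ θ : Dir, ‖(g θ : ℂ)‖ ^ 2 ∂AddCircle.haarAddCircle) := by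
  have h1 : MemLp (fun θ : Dir => (g θ : ℂ)) 2 AddCircle.haarAddCircle :=
    memLp_haarAddCircle_iff.mpr hg.ofReal
  have h2 := hasSum_sq_fourierCoeff (h1.toLp _)
  rw [fourierCoeff_congr_ae h1.coeFn_toLp] at h2
  have h3 : ∫ θ : Dir, ‖(h1.toLp _) θ‖ ^ 2 ∂AddCircle.haarAddCircle =
      ∫ θ : Dir, ‖(g θ : ℂ)‖ ^ 2 ∂AddCircle.haarAddCircle := by
    refine integral_congr_ae ?_
    filter_upwards [h1.coeFn_toLp] with θ hθ
    rw [hθ]
  rwa [h3] at h2

/-- Bessel's inequality. -/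
private lemma bessel {g : Dir → ℝ} (hg : MemLp g 2) (S : Finset ℕ) :
    ∑ n ∈ S, ‖∫ θ : Dir, e θ ^ n * (g θ : ℂ)‖ ^ 2 ≤ 2 * Real.pi * ∫ θ : Dir, g θ ^ 2 := by
  have hp : (0 : ℝ) < 2 * Real.pi := by positivity
  have h1 := parseval hg
  have h2 : ∑ n ∈ S, ‖fourierCoeff (fun θ : Dir => (g θ : ℂ)) (-(n : ℤ))‖ ^ 2 ≤
      ∫ θ : Dir, ‖(g θ : ℂ)‖ ^ 2 ∂AddCircle.haarAddCircle := by
    have hinj : Function.Injective (fun n : ℕ => -(n : ℤ)) := by
      intro a b h
      simpa using h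
    have h3 := sum_le_hasSum (S.map ⟨_, hinj⟩) (fun i _ => by positivity) h1
    rwa [Finset.sum_map] at h3
  have h4 : ∫ θ : Dir, ‖(g θ : ℂ)‖ ^ 2 ∂AddCircle.haarAddCircle =
      (2 * Real.pi)⁻¹ * ∫ θ : Dir, g θ ^ 2 := by
    rw [AddCircle.integral_haarAddCircle, smul_eq_mul]
    congr 1
    refine integral_congr_ae (ae_of_all _ fun θ => ?_)
    simp only
    rw [Complex.norm_real, Real.norm_eq_abs, sq_abs]
  have h5 : ∀ n : ℕ, ‖∫ θ : Dir, e θ ^ n * (g θ : ℂ)‖ ^ 2 = (2 * Real.pi) ^ 2 *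
      ‖fourierCoeff (fun θ : Dir => (g θ : ℂ)) (-(n : ℤ))‖ ^ 2 := by
    intro n
    rw [coeff_eq, norm_smul, Real.norm_of_nonneg (inv_nonneg.mpr hp.le), ← mul_pow, ← mul_assoc,
      mul_inv_cancel₀ hp.ne', one_mul]
  simp_rw [h5]
  rw [← Finset.mul_sum]
  rw [h4] at h2
  calc (2 * Real.pi) ^ 2 * ∑ n ∈ S, ‖fourierCoeff (fun θ : Dir => (g θ : ℂ)) (-(n : ℤ))‖ ^ 2
      ≤ (2 * Real.pi) ^ 2 * ((2 * Real.pi)⁻¹ * ∫ θ : Dir, g θ ^ 2) := by gcongr
    _ = 2 * Real.pi * ∫ θ : Dir, g θ ^ 2 := by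
        field_simp

section
variable {U : Set ℂ} {F : ℂ × Dir → ℝ} {L : ℝ}

private lemma am_bd (hL : ∀ a, |F a| ≤ L) (n : ℕ) (x : ℂ) :
    ‖am n F x‖ ≤ ∫ _θ : Dir, L := by
  refine norm_integral_le_of_norm_le (integrable_const L) (ae_of_all _ fun θ => ?_)
  rw [norm_mul, norm_pow, norm_e, one_pow, one_mul, Complex.norm_real, Real.norm_eq_abs]
  exact hL _

private lemma am_meas (hF : Measurable F) (n : ℕ) : StronglyMeasurable (am n F) := by
  have h1 : StronglyMeasurable (fun p : ℂ × Dir => e p.2 ^ n * (F p : ℂ)) :=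
    (((continuous_e.comp continuous_snd).pow n).stronglyMeasurable).mul
      (Complex.measurable_ofReal.comp hF).stronglyMeasurable
  exact h1.integral_prod_right'

private lemma th_int (hF : Measurable F) (hL : ∀ a, |F a| ≤ L) (n : ℕ) (x : ℂ) :
    Integrable (fun θ : Dir => e θ ^ n * (F (x, θ) : ℂ)) := by
  refine Integrable.of_bound (C := L) ?_ (ae_of_all _ fun θ => ?_)
  · exact ((continuous_e.pow n).aestronglyMeasurable).mul
      (Complex.measurable_ofReal.comp (hF.comp measurable_prodMk_left)).aestronglyMeasurable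
  · rw [norm_mul, norm_pow, norm_e, one_pow, one_mul, Complex.norm_real, Real.norm_eq_abs]
    exact hL _

private lemma sq_int [IsFiniteMeasure (volume.restrict U)] {u : ℂ → ℂ} {K : ℝ}
    (hu : StronglyMeasurable u) (hK : ∀ x, ‖u x‖ ≤ K) :
    Integrable (fun x => ‖u x‖ ^ 2) (volume.restrict U) := by
  refine Integrable.of_bound (C := K ^ 2) (hu.norm.pow 2).aestronglyMeasurable
    (ae_of_all _ fun x => ?_)
  rw [Real.norm_of_nonneg (sq_nonneg _)]
  exact pow_le_pow_left₀ (norm_nonneg _) (hK x) 2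

private lemma mul_int [IsFiniteMeasure (volume.restrict U)] {u v : ℂ → ℂ} {K K' : ℝ}
    (hu : StronglyMeasurable u) (hK : ∀ x, ‖u x‖ ≤ K) (hv : StronglyMeasurable v)
    (hK' : ∀ x, ‖v x‖ ≤ K') :
    Integrable (fun x => (u x).re * (v x).im - (u x).im * (v x).re) (volume.restrict U) := by
  refine Integrable.of_bound (C := K * K' + K * K') ?_ (ae_of_all _ fun x => ?_)
  · have h1 := Complex.measurable_re.comp hu.measurable
    have h2 := Complex.measurable_im.comp hu.measurable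
    have h3 := Complex.measurable_re.comp hv.measurable
    have h4 := Complex.measurable_im.comp hv.measurable
    exact ((h1.mul h4).sub (h2.mul h3)).aestronglyMeasurable
  · have a1 := (Complex.abs_re_le_norm (u x)).trans (hK x)
    have a2 := (Complex.abs_im_le_norm (u x)).trans (hK x)
    have a3 := (Complex.abs_re_le_norm (v x)).trans (hK' x)
    have a4 := (Complex.abs_im_le_norm (v x)).trans (hK' x)
    rw [Real.norm_eq_abs]
    refine (abs_sub _ _).trans ?_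
    rw [abs_mul, abs_mul]
    have hK0 : 0 ≤ K := (abs_nonneg _).trans a1
    exact add_le_add (mul_le_mul a1 a4 (abs_nonneg _) hK0) (mul_le_mul a2 a3 (abs_nonneg _) hK0)

/-- Bessel, integrated over the table -/
private lemma bessel_int (hUf : volume U ≠ ⊤) (hF : Measurable F)
    (hL : ∀ a, |F a| ≤ L) (S : Finset ℕ) :
    ∑ n ∈ S, ∫ x in U, ‖am n F x‖ ^ 2 ≤
      2 * Real.pi * ∫ a in U ×ˢ (univ : Set Dir), F a ^ 2 := by
  have hfin : IsFiniteMeasure (volume.restrict U) := ⟨by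
    rw [Measure.restrict_apply_univ]; exact lt_top_iff_ne_top.mpr hUf⟩
  have hL0 : 0 ≤ L := (abs_nonneg _).trans (hL (0, 0))
  have hFi : Integrable (fun a : ℂ × Dir => F a ^ 2)
      ((volume.restrict U).prod (volume : Measure Dir)) := by
    refine Integrable.of_bound (C := L ^ 2) (hF.pow_const 2).aestronglyMeasurable
      (ae_of_all _ fun a => ?_)
    rw [Real.norm_of_nonneg (sq_nonneg _), ← sq_abs]
    exact pow_le_pow_left₀ (abs_nonneg _) (hL a) 2
  have e1 : ∫ a in U ×ˢ (univ : Set Dir), F a ^ 2 = ∫ x in U, ∫ θ : Dir, F (x, θ) ^ 2 := by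
    rw [Measure.volume_eq_prod, ← Measure.prod_restrict, Measure.restrict_univ,
      integral_prod _ hFi]
  rw [e1, ← integral_finsetSum _ (fun n _ => sq_int (am_meas hF n) (am_bd hL n)),
    ← integral_const_mul]
  refine integral_mono (integrable_finsetSum _ fun n _ => sq_int (am_meas hF n) (am_bd hL n))
    (hFi.integral_prod_left.const_mul _) (fun x => ?_)
  refine bessel (g := fun θ => F (x, θ)) ?_ S
  refine MemLp.of_bound (hF.comp measurable_prodMk_left).aestronglyMeasurable L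
    (ae_of_all _ fun θ => ?_)
  rw [Real.norm_eq_abs]
  exact hL _

end


private lemma opt {X Y z : ℝ} (hX : 0 ≤ X) (hY : 0 ≤ Y)
    (h : ∀ τ : ℝ, 0 < τ → z ≤ τ * X + τ⁻¹ * Y) : z ≤ 2 * (Real.sqrt X * Real.sqrt Y) := by
  rcases hX.eq_or_lt with hX0 | hX0
  · rw [← hX0, Real.sqrt_zero, zero_mul, mul_zero]
    by_contra hc
    rw [not_le] at hc
    have h1 := h ((Y + 1) / z) (by positivity)
    rw [← hX0, mul_zero, zero_add, inv_div, div_mul_eq_mul_div, le_div_iff₀ (by positivity)] at h1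
    nlinarith
  · rcases hY.eq_or_lt with hY0 | hY0
    · rw [← hY0, Real.sqrt_zero, mul_zero, mul_zero]
      by_contra hc
      rw [not_le] at hc
      have h1 := h (z / (2 * X)) (by positivity)
      rw [← hY0, mul_zero, add_zero, div_mul_eq_mul_div, le_div_iff₀ (by positivity)] at h1
      nlinarith
    · have hx := Real.sqrt_pos.2 hX0
      have hy := Real.sqrt_pos.2 hY0
      have h1 := h (Real.sqrt Y / Real.sqrt X) (by positivity)
      have e1 : Real.sqrt Y / Real.sqrt X * X = Real.sqrt X * Real.sqrt Y := by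
        rw [div_mul_eq_mul_div, div_eq_iff hx.ne']
        nlinarith [Real.mul_self_sqrt hX]
      have e2 : (Real.sqrt Y / Real.sqrt X)⁻¹ * Y = Real.sqrt X * Real.sqrt Y := by
        rw [inv_div, div_mul_eq_mul_div, div_eq_iff hy.ne']
        nlinarith [Real.mul_self_sqrt hY]
      rw [e1, e2] at h1
      linarith

/-- the derivative along the flow -/
noncomputable def lo (A1 A2 : ℂ × Dir → ℝ) (a : ℂ × Dir) : ℝ :=
  (e a.2).re * A1 a + (e a.2).im * A2 a

section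
variable {A1 A2 : ℂ × Dir → ℝ} {L : ℝ}

private lemma em : Measurable (fun a : ℂ × Dir => e a.2) :=
  continuous_e.measurable.comp measurable_snd

private lemma lo_meas (hA1 : Measurable A1) (hA2 : Measurable A2) : Measurable (lo A1 A2) :=
  ((Complex.measurable_re.comp em).mul hA1).add ((Complex.measurable_im.comp em).mul hA2)

private lemma tr_meas (hA1 : Measurable A1) (hA2 : Measurable A2) : Measurable (tr A1 A2) :=
  ((Complex.measurable_im.comp em).neg.mul hA1).add ((Complex.measurable_re.comp em).mul hA2)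

private lemma lo_bd (hb1 : ∀ a, |A1 a| ≤ L) (hb2 : ∀ a, |A2 a| ≤ L) (a : ℂ × Dir) :
    |lo A1 A2 a| ≤ 2 * L := by
  have b1 : |(e a.2).re| ≤ 1 := (Complex.abs_re_le_norm _).trans (norm_e _).le
  have b2 : |(e a.2).im| ≤ 1 := (Complex.abs_im_le_norm _).trans (norm_e _).le
  calc |lo A1 A2 a| ≤ |(e a.2).re * A1 a| + |(e a.2).im * A2 a| := abs_add_le _ _
    _ = |(e a.2).re| * |A1 a| + |(e a.2).im| * |A2 a| := by rw [abs_mul, abs_mul]
    _ ≤ 1 * L + 1 * L := by
        gcongr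
        · exact hb1 a
        · exact hb2 a
    _ = 2 * L := by ring

private lemma tr_bd (hb1 : ∀ a, |A1 a| ≤ L) (hb2 : ∀ a, |A2 a| ≤ L) (a : ℂ × Dir) :
    |tr A1 A2 a| ≤ 2 * L := by
  have b1 : |(e a.2).re| ≤ 1 := (Complex.abs_re_le_norm _).trans (norm_e _).le
  have b2 : |(e a.2).im| ≤ 1 := (Complex.abs_im_le_norm _).trans (norm_e _).le
  calc |tr A1 A2 a| ≤ |- (e a.2).im * A1 a| + |(e a.2).re * A2 a| := abs_add_le _ _
    _ = |(e a.2).im| * |A1 a| + |(e a.2).re| * |A2 a| := by rw [abs_mul, abs_mul, abs_neg]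
    _ ≤ 1 * L + 1 * L := by
        gcongr
        · exact hb1 a
        · exact hb2 a
    _ = 2 * L := by ring

private lemma ee (θ : Dir) : e θ * conj (e θ) = 1 := by
  rw [Complex.mul_conj, Complex.normSq_eq_norm_sq, norm_e]
  norm_num

private lemma rr' (θ : Dir) : ((e θ).re : ℂ) = (e θ + conj (e θ)) / 2 :=
  Complex.re_eq_add_conj _

private lemma ii' (θ : Dir) :
    ((e θ).im : ℂ) = - Complex.I * (e θ - conj (e θ)) / 2 := by
  rw [Complex.im_eq_sub_conj]
  have hI0 : Complex.I ≠ 0 := Complex.I_ne_zero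
  field_simp
  linear_combination (e θ - conj (e θ)) * Complex.I_sq

/-- the modes of the derivative along the flow -/
private lemma id_lo (hA1 : Measurable A1) (hA2 : Measurable A2) (hb1 : ∀ a, |A1 a| ≤ L)
    (hb2 : ∀ a, |A2 a| ≤ L) (n : ℕ) (x : ℂ) :
    (am n A1 x + Complex.I * am n A2 x) + (am (n + 2) A1 x - Complex.I * am (n + 2) A2 x) =
      2 * am (n + 1) (lo A1 A2) x := by
  have j1 := th_int hA1 hb1 n x
  have j2 := th_int hA2 hb2 n x
  have j3 := th_int hA1 hb1 (n + 2) x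
  have j4 := th_int hA2 hb2 (n + 2) x
  have k1 : Integrable (fun θ : Dir => e θ ^ n * (A1 (x, θ) : ℂ) +
      Complex.I * (e θ ^ n * (A2 (x, θ) : ℂ))) := j1.add (j2.const_mul _)
  have k2 : Integrable (fun θ : Dir => e θ ^ (n + 2) * (A1 (x, θ) : ℂ) -
      Complex.I * (e θ ^ (n + 2) * (A2 (x, θ) : ℂ))) := j3.sub (j4.const_mul _)
  unfold am
  rw [← integral_const_mul, ← integral_const_mul, ← integral_const_mul, ← integral_add j1
    (j2.const_mul _), ← integral_sub j3 (j4.const_mul _), ← integral_add k1 k2]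
  refine integral_congr_ae (ae_of_all _ fun θ => ?_)
  have hcc := ee θ
  simp only [lo]
  push_cast
  rw [rr', ii']
  linear_combination (-(e θ ^ n * ((A1 (x, θ) : ℂ) + Complex.I * (A2 (x, θ) : ℂ)))) * hcc

/-- the modes of the transversal derivative -/
private lemma id_tr (hA1 : Measurable A1) (hA2 : Measurable A2) (hb1 : ∀ a, |A1 a| ≤ L)
    (hb2 : ∀ a, |A2 a| ≤ L) (n : ℕ) (x : ℂ) :
    Complex.I * ((am (n + 2) A1 x - Complex.I * am (n + 2) A2 x) -
      (am n A1 x + Complex.I * am n A2 x)) = 2 * am (n + 1) (tr A1 A2) x := by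
  have j1 := th_int hA1 hb1 n x
  have j2 := th_int hA2 hb2 n x
  have j3 := th_int hA1 hb1 (n + 2) x
  have j4 := th_int hA2 hb2 (n + 2) x
  have k1 : Integrable (fun θ : Dir => e θ ^ n * (A1 (x, θ) : ℂ) +
      Complex.I * (e θ ^ n * (A2 (x, θ) : ℂ))) := j1.add (j2.const_mul _)
  have k2 : Integrable (fun θ : Dir => e θ ^ (n + 2) * (A1 (x, θ) : ℂ) -
      Complex.I * (e θ ^ (n + 2) * (A2 (x, θ) : ℂ))) := j3.sub (j4.const_mul _)
  unfold am
  rw [← integral_const_mul, ← integral_const_mul, ← integral_add j1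
    (j2.const_mul _), ← integral_sub j3 (j4.const_mul _), ← integral_sub k2 k1,
    ← integral_const_mul, ← integral_const_mul]
  refine integral_congr_ae (ae_of_all _ fun θ => ?_)
  have hcc := ee θ
  have hI := Complex.I_sq
  simp only [tr]
  push_cast
  rw [rr', ii']
  linear_combination (e θ ^ n * (Complex.I * (A1 (x, θ) : ℂ) - (A2 (x, θ) : ℂ))) * hcc +
    (-(e θ ^ (n + 2) * (A2 (x, θ) : ℂ)) - e θ ^ n * (A2 (x, θ) : ℂ)) * hI

private lemma zero_eq (hA1 : Measurable A1) (hA2 : Measurable A2) (hb1 : ∀ a, |A1 a| ≤ L)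
    (hb2 : ∀ a, |A2 a| ≤ L) (x : ℂ) :
    am 1 A1 x - Complex.I * am 1 A2 x = am 0 (lo A1 A2) x - Complex.I * am 0 (tr A1 A2) x := by
  have j1 := th_int hA1 hb1 1 x
  have j2 := th_int hA2 hb2 1 x
  have j3 := th_int (lo_meas hA1 hA2) (lo_bd hb1 hb2) 0 x
  have j4 := th_int (tr_meas hA1 hA2) (tr_bd hb1 hb2) 0 x
  unfold am
  rw [← integral_const_mul, ← integral_const_mul, ← integral_sub j1 (j2.const_mul _),
    ← integral_sub j3 (j4.const_mul _)]
  refine integral_congr_ae (ae_of_all _ fun θ => ?_)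
  have hI := Complex.I_sq
  have he : e θ = ((e θ).re : ℂ) + ((e θ).im : ℂ) * Complex.I := (Complex.re_add_im _).symm
  simp only [tr, lo]
  push_cast
  rw [pow_one, pow_zero]
  linear_combination ((A1 (x, θ) : ℂ) - Complex.I * (A2 (x, θ) : ℂ)) * he -
    ((e θ).im : ℂ) * (A2 (x, θ) : ℂ) * hI

private lemma am_zero (F : ℂ × Dir → ℝ) (x : ℂ) :
    am 0 F x = ((∫ θ : Dir, F (x, θ) : ℝ) : ℂ) := by
  unfold am
  rw [← integral_complex_ofReal]
  refine integral_congr_ae (ae_of_all _ fun θ => ?_)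
  simp

private lemma nP (a b : ℂ) : ‖a + Complex.I * b‖ ^ 2 = (‖a‖ ^ 2 + ‖b‖ ^ 2)
    - 2 * (a.re * b.im - a.im * b.re) := by
  rw [← Complex.normSq_eq_norm_sq, ← Complex.normSq_eq_norm_sq, ← Complex.normSq_eq_norm_sq]
  simp only [Complex.normSq_apply, Complex.add_re, Complex.add_im, Complex.mul_re,
    Complex.mul_im, Complex.I_re, Complex.I_im]
  ring

private lemma nQ (a b : ℂ) : ‖a - Complex.I * b‖ ^ 2 = (‖a‖ ^ 2 + ‖b‖ ^ 2)
    + 2 * (a.re * b.im - a.im * b.re) := by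
  rw [← Complex.normSq_eq_norm_sq, ← Complex.normSq_eq_norm_sq, ← Complex.normSq_eq_norm_sq]
  simp only [Complex.normSq_apply, Complex.sub_re, Complex.sub_im, Complex.mul_re,
    Complex.mul_im, Complex.I_re, Complex.I_im]
  ring

/-- energy of a mode of one function -/
private noncomputable def eo (U : Set ℂ) (A1 A2 : ℂ × Dir → ℝ) (m : ℕ) : ℝ :=
  ∫ x in U, (‖am m A1 x‖ ^ 2 + ‖am m A2 x‖ ^ 2)

/-- integral over `U` of the square of a mode -/
private noncomputable def mo (U : Set ℂ) (F : ℂ × Dir → ℝ) (m : ℕ) : ℝ :=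
  ∫ x in U, ‖am m F x‖ ^ 2

private lemma fin_U {U : Set ℂ} (hUf : volume U ≠ ⊤) : IsFiniteMeasure (volume.restrict U) := ⟨by
  rw [Measure.restrict_apply_univ]; exact lt_top_iff_ne_top.mpr hUf⟩

private lemma mo_int {U : Set ℂ} (hUf : volume U ≠ ⊤) {F : ℂ × Dir → ℝ} {K : ℝ}
    (hF : Measurable F) (hb : ∀ a, |F a| ≤ K) (m : ℕ) :
    Integrable (fun x => ‖am m F x‖ ^ 2) (volume.restrict U) := by
  have := fin_U hUf
  exact sq_int (am_meas hF m) (am_bd hb m)

/-- the parallelogram identity -/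
private lemma par_succ {U : Set ℂ} (hUf : volume U ≠ ⊤) (hA1 : Measurable A1)
    (hA2 : Measurable A2) (hb1 : ∀ a, |A1 a| ≤ L) (hb2 : ∀ a, |A2 a| ≤ L)
    (hj : ∀ n : ℕ, ∫ x in U, ((am n A1 x).re * (am n A2 x).im -
      (am n A1 x).im * (am n A2 x).re) = 0) (n : ℕ) :
    mo U (tr A1 A2) (n + 1) + mo U (lo A1 A2) (n + 1) =
      (eo U A1 A2 n + eo U A1 A2 (n + 2)) / 2 := by
  have := fin_U hUf
  have i1 := fun n => mo_int hUf hA1 hb1 n
  have i2 := fun n => mo_int hUf hA2 hb2 n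
  have iJ := fun n => mul_int (U := U) (am_meas hA1 n) (am_bd hb1 n) (am_meas hA2 n) (am_bd hb2 n)
  have iT := mo_int hUf (tr_meas hA1 hA2) (tr_bd hb1 hb2) (n + 1)
  have iS := mo_int hUf (lo_meas hA1 hA2) (lo_bd hb1 hb2) (n + 1)
  have hD : ∀ n, Integrable (fun x => ‖am n A1 x‖ ^ 2 + ‖am n A2 x‖ ^ 2)
    (volume.restrict U) := fun n => (i1 n).add (i2 n)
  have pt : ∀ x, ‖am (n + 1) (tr A1 A2) x‖ ^ 2 + ‖am (n + 1) (lo A1 A2) x‖ ^ 2 =
      ((‖am n A1 x‖ ^ 2 + ‖am n A2 x‖ ^ 2) +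
        (‖am (n + 2) A1 x‖ ^ 2 + ‖am (n + 2) A2 x‖ ^ 2)) / 2 +
      (((am (n + 2) A1 x).re * (am (n + 2) A2 x).im - (am (n + 2) A1 x).im *
        (am (n + 2) A2 x).re) -
        ((am n A1 x).re * (am n A2 x).im - (am n A1 x).im * (am n A2 x).re)) := by
    intro x
    have h1 := id_lo hA1 hA2 hb1 hb2 n x
    have h2 := id_tr hA1 hA2 hb1 hb2 n x
    have h3 := nP (am n A1 x) (am n A2 x)
    have h4 := nQ (am (n + 2) A1 x) (am (n + 2) A2 x)
    set p := am n A1 x + Complex.I * am n A2 x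
    set q := am (n + 2) A1 x - Complex.I * am (n + 2) A2 x
    have h5 : ‖am (n + 1) (lo A1 A2) x‖ ^ 2 = ‖p + q‖ ^ 2 / 4 := by
      rw [h1, norm_mul]
      norm_num
      ring
    have h6 : ‖am (n + 1) (tr A1 A2) x‖ ^ 2 = ‖q - p‖ ^ 2 / 4 := by
      have : ‖q - p‖ = ‖Complex.I * (q - p)‖ := by
        rw [norm_mul, Complex.norm_I, one_mul]
      rw [this, h2, norm_mul]
      norm_num
      ring
    have h7 := parallelogram_law_with_norm ℝ p q
    have h8 : ‖q - p‖ = ‖p - q‖ := norm_sub_rev _ _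
    rw [h5, h6, h8]
    nlinarith
  have e1 : mo U (tr A1 A2) (n + 1) + mo U (lo A1 A2) (n + 1) =
      ∫ x in U, (‖am (n + 1) (tr A1 A2) x‖ ^ 2 + ‖am (n + 1) (lo A1 A2) x‖ ^ 2) :=
    (integral_add iT iS).symm
  rw [e1]
  simp_rw [pt]
  have hDD : Integrable (fun x => ((‖am n A1 x‖ ^ 2 + ‖am n A2 x‖ ^ 2) +
        (‖am (n + 2) A1 x‖ ^ 2 + ‖am (n + 2) A2 x‖ ^ 2)) / 2) (volume.restrict U) :=
    ((hD n).add (hD (n + 2))).div_const 2
  have hJJ : Integrable (fun x => (((am (n + 2) A1 x).re * (am (n + 2) A2 x).im -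
        (am (n + 2) A1 x).im * (am (n + 2) A2 x).re) -
        ((am n A1 x).re * (am n A2 x).im - (am n A1 x).im * (am n A2 x).re)))
      (volume.restrict U) := (iJ (n + 2)).sub (iJ n)
  rw [integral_add hDD hJJ, integral_div, integral_add (hD n) (hD (n + 2)),
    integral_sub (iJ (n + 2)) (iJ n), hj, hj, sub_zero, add_zero]
  rfl

private lemma par_zero {U : Set ℂ} (hUf : volume U ≠ ⊤) (hA1 : Measurable A1)
    (hA2 : Measurable A2) (hb1 : ∀ a, |A1 a| ≤ L) (hb2 : ∀ a, |A2 a| ≤ L)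
    (hj : ∀ n : ℕ, ∫ x in U, ((am n A1 x).re * (am n A2 x).im -
      (am n A1 x).im * (am n A2 x).re) = 0) :
    mo U (tr A1 A2) 0 + mo U (lo A1 A2) 0 = eo U A1 A2 1 := by
  have := fin_U hUf
  have i1 := fun n => mo_int hUf hA1 hb1 n
  have i2 := fun n => mo_int hUf hA2 hb2 n
  have iJ := fun n => mul_int (U := U) (am_meas hA1 n) (am_bd hb1 n) (am_meas hA2 n) (am_bd hb2 n)
  have iT := mo_int hUf (tr_meas hA1 hA2) (tr_bd hb1 hb2) 0
  have iS := mo_int hUf (lo_meas hA1 hA2) (lo_bd hb1 hb2) 0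
  have hD : ∀ n, Integrable (fun x => ‖am n A1 x‖ ^ 2 + ‖am n A2 x‖ ^ 2)
    (volume.restrict U) := fun n => (i1 n).add (i2 n)
  have pt : ∀ x, ‖am 0 (tr A1 A2) x‖ ^ 2 + ‖am 0 (lo A1 A2) x‖ ^ 2 =
      (‖am 1 A1 x‖ ^ 2 + ‖am 1 A2 x‖ ^ 2) +
      2 * ((am 1 A1 x).re * (am 1 A2 x).im - (am 1 A1 x).im * (am 1 A2 x).re) := by
    intro x
    have h1 := zero_eq hA1 hA2 hb1 hb2 x
    have h2 := nQ (am 1 A1 x) (am 1 A2 x)
    have h3 := nQ (am 0 (lo A1 A2) x) (am 0 (tr A1 A2) x)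
    rw [h1, h3] at h2
    rw [am_zero (lo A1 A2) x, am_zero (tr A1 A2) x] at h2 ⊢
    simp only [Complex.ofReal_re, Complex.ofReal_im] at h2
    linarith
  have e1 : mo U (tr A1 A2) 0 + mo U (lo A1 A2) 0 =
      ∫ x in U, (‖am 0 (tr A1 A2) x‖ ^ 2 + ‖am 0 (lo A1 A2) x‖ ^ 2) :=
    (integral_add iT iS).symm
  rw [e1]
  simp_rw [pt]
  rw [integral_add (hD 1) ((iJ 1).const_mul 2), integral_const_mul, hj, mul_zero, add_zero]
  rfl

/-- the modes of the derivative along the flow are at least those of `ω H` -/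
private lemma lower {U : Set ℂ} (hUm : MeasurableSet U) (hUf : volume U ≠ ⊤)
    (hA1 : Measurable A1)
    (hA2 : Measurable A2) (hb1 : ∀ a, |A1 a| ≤ L) (hb2 : ∀ a, |A2 a| ≤ L) {H s : ℂ × Dir → ℝ}
    {ω : ℝ} (hH : Measurable H) (hHb : ∀ a, |H a| ≤ L) (hs : Measurable s)
    (hsb : ∀ a, |s a| ≤ L)
    (hz : ∀ᵐ a ∂(volume.restrict (U ×ˢ (univ : Set Dir))), |lo A1 A2 a + ω * H a| ≤ s a)
    (m : ℕ) :
    ω ^ 2 * mo U H m ≤ mo U (lo A1 A2) m +
      4 * Real.pi * (|ω| * (Real.sqrt (S2 U H) * Real.sqrt (S2 U s))) := by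
  have := fin_U hUf
  have hL0 : 0 ≤ L := (abs_nonneg _).trans (hb1 (0, 0))
  set z : ℂ × Dir → ℝ := fun a => lo A1 A2 a + ω * H a with hzdef
  have hzm : Measurable z := (lo_meas hA1 hA2).add (hH.const_mul ω)
  have hzb : ∀ a, |z a| ≤ 2 * L + |ω| * L := by
    intro a
    refine (abs_add_le _ _).trans (add_le_add (lo_bd hb1 hb2 a) ?_)
    rw [abs_mul]
    exact mul_le_mul_of_nonneg_left (hHb a) (abs_nonneg _)
  have iz := mo_int hUf hzm hzb m
  have iH := mo_int hUf hH hHb m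
  have il := mo_int hUf (lo_meas hA1 hA2) (lo_bd hb1 hb2) m
  have hid : ∀ x, am m (lo A1 A2) x = am m z x - (ω : ℂ) * am m H x := by
    intro x
    have j1 := th_int hzm hzb m x
    have j2 := th_int hH hHb m x
    unfold am
    rw [← integral_const_mul, ← integral_sub j1 (j2.const_mul _)]
    refine integral_congr_ae (ae_of_all _ fun θ => ?_)
    simp only [hzdef]
    push_cast
    ring
  -- bounds of the integrals
  have hvol : volume (U ×ˢ (univ : Set Dir)) ≠ ⊤ := by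
    rw [Measure.volume_eq_prod, Measure.prod_prod]
    exact ENNReal.mul_ne_top hUf (measure_ne_top _ _)
  have hfin2 : IsFiniteMeasure (volume.restrict (U ×ˢ (univ : Set Dir))) := ⟨by
    rw [Measure.restrict_apply_univ]; exact lt_top_iff_ne_top.mpr hvol⟩
  have hbi : ∀ (F : ℂ × Dir → ℝ) (K : ℝ), Measurable F → (∀ a, |F a| ≤ K) →
      Integrable (fun a => F a ^ 2) (volume.restrict (U ×ˢ (univ : Set Dir))) := by
    intro F K hF hK
    refine Integrable.of_bound (C := K ^ 2) (hF.pow_const 2).aestronglyMeasurable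
      (ae_of_all _ fun a => ?_)
    rw [Real.norm_of_nonneg (sq_nonneg _), ← sq_abs]
    exact pow_le_pow_left₀ (abs_nonneg _) (hK a) 2
  have bz : mo U z m ≤ 2 * Real.pi * S2 U s := by
    have h1 := bessel_int hUf hzm hzb {m}
    rw [Finset.sum_singleton] at h1
    refine h1.trans (mul_le_mul_of_nonneg_left ?_ (by positivity))
    refine integral_mono_ae (hbi z _ hzm hzb) (hbi s _ hs hsb) ?_
    filter_upwards [hz] with a ha
    rw [← sq_abs (z a)]
    exact pow_le_pow_left₀ (abs_nonneg _) ha 2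
  have bH : mo U H m ≤ 2 * Real.pi * S2 U H := by
    have h1 := bessel_int hUf hH hHb {m}
    rwa [Finset.sum_singleton] at h1
  have n1 : 0 ≤ S2 U H := integral_nonneg fun a => sq_nonneg _
  have n2 : 0 ≤ S2 U s := integral_nonneg fun a => sq_nonneg _
  -- pointwise inequality and optimisation
  have key : ∀ τ : ℝ, 0 < τ → ω ^ 2 * mo U H m - mo U (lo A1 A2) m ≤
      τ * (2 * Real.pi * |ω| * S2 U H) + τ⁻¹ * (2 * Real.pi * |ω| * S2 U s) := by
    intro τ hτ
    have pt : ∀ x, ω ^ 2 * ‖am m H x‖ ^ 2 ≤ ‖am m (lo A1 A2) x‖ ^ 2 +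
        (τ * |ω| * ‖am m H x‖ ^ 2 + τ⁻¹ * |ω| * ‖am m z x‖ ^ 2) := by
      intro x
      have h1 : ‖(ω : ℂ) * am m H x‖ ≤ ‖am m (lo A1 A2) x‖ + ‖am m z x‖ := by
        have : (ω : ℂ) * am m H x = am m z x - am m (lo A1 A2) x := by rw [hid]; ring
        rw [this]
        linarith [norm_sub_le (am m z x) (am m (lo A1 A2) x)]
      rw [norm_mul, Complex.norm_real, Real.norm_eq_abs] at h1
      set h := ‖am m H x‖
      set ζ := ‖am m z x‖
      set l := ‖am m (lo A1 A2) x‖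
      have hh : 0 ≤ h := norm_nonneg _
      have hζ : 0 ≤ ζ := norm_nonneg _
      have hl : 0 ≤ l := norm_nonneg _
      have hw : 0 ≤ |ω| := abs_nonneg _
      -- `(|ω| h - ζ)² ≤ l²` when `|ω| h ≥ ζ`
      have h2 : (|ω| * h) ^ 2 ≤ l ^ 2 + 2 * (|ω| * h) * ζ := by
        rcases le_total (|ω| * h) ζ with hc | hc
        · nlinarith [mul_nonneg hw hh, sq_nonneg l]
        · have : (|ω| * h - ζ) ^ 2 ≤ l ^ 2 := by
            apply pow_le_pow_left₀ (by linarith)
            linarith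
          nlinarith [sq_nonneg ζ]
      have h3 : 2 * h * ζ ≤ τ * h ^ 2 + τ⁻¹ * ζ ^ 2 := by
        have h6 : 0 ≤ τ⁻¹ * (τ * h - ζ) ^ 2 := by positivity
        have h7 : τ⁻¹ * (τ * h - ζ) ^ 2 = τ * h ^ 2 + τ⁻¹ * ζ ^ 2 - 2 * h * ζ := by
          field_simp
          ring
        linarith
      have h4 : ω ^ 2 * h ^ 2 = (|ω| * h) ^ 2 := by rw [mul_pow, sq_abs]
      rw [h4]
      have h5 := mul_le_mul_of_nonneg_left h3 hw
      nlinarith
    have i1 : Integrable (fun x => ω ^ 2 * ‖am m H x‖ ^ 2) (volume.restrict U) :=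
      iH.const_mul _
    have i2 : Integrable (fun x => τ * |ω| * ‖am m H x‖ ^ 2 + τ⁻¹ * |ω| * ‖am m z x‖ ^ 2)
      (volume.restrict U) := (iH.const_mul _).add (iz.const_mul _)
    have i3 : Integrable (fun x => ‖am m (lo A1 A2) x‖ ^ 2 + (τ * |ω| * ‖am m H x‖ ^ 2 +
        τ⁻¹ * |ω| * ‖am m z x‖ ^ 2)) (volume.restrict U) := il.add i2
    have h1 := integral_mono i1 i3 pt
    rw [integral_const_mul, integral_add il i2, integral_add (iH.const_mul _) (iz.const_mul _),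
      integral_const_mul, integral_const_mul] at h1
    have h2 : ω ^ 2 * mo U H m ≤ mo U (lo A1 A2) m +
        (τ * |ω| * mo U H m + τ⁻¹ * |ω| * mo U z m) := h1
    have h3 : τ * |ω| * mo U H m ≤ τ * |ω| * (2 * Real.pi * S2 U H) :=
      mul_le_mul_of_nonneg_left bH (by positivity)
    have h4 : τ⁻¹ * |ω| * mo U z m ≤ τ⁻¹ * |ω| * (2 * Real.pi * S2 U s) :=
      mul_le_mul_of_nonneg_left bz (by positivity)
    nlinarith
  have hX : 0 ≤ 2 * Real.pi * |ω| * S2 U H := by positivity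
  have hY : 0 ≤ 2 * Real.pi * |ω| * S2 U s := by positivity
  have h1 := opt hX hY key
  have h2 : Real.sqrt (2 * Real.pi * |ω| * S2 U H) * Real.sqrt (2 * Real.pi * |ω| * S2 U s) =
      2 * Real.pi * |ω| * (Real.sqrt (S2 U H) * Real.sqrt (S2 U s)) := by
    have e1 : Real.sqrt (2 * Real.pi * |ω| * S2 U H) =
        Real.sqrt (2 * Real.pi * |ω|) * Real.sqrt (S2 U H) := Real.sqrt_mul (by positivity) _
    have e2 : Real.sqrt (2 * Real.pi * |ω| * S2 U s) =
        Real.sqrt (2 * Real.pi * |ω|) * Real.sqrt (S2 U s) := Real.sqrt_mul (by positivity) _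
    rw [e1, e2]
    have := Real.mul_self_sqrt (show 0 ≤ 2 * Real.pi * |ω| by positivity)
    linear_combination (Real.sqrt (S2 U H) * Real.sqrt (S2 U s)) * this
  rw [h2] at h1
  linarith

end

theorem pieceConv (h4 : H34.WM.PieceTel2) : H34.WM.PieceConv := by
  obtain ⟨C4, hC4, hT⟩ := h4
  refine ⟨C4 + 16 * Real.pi, by positivity, ?_⟩
  intro U ω G H A1 A2 B1 B2 s g L D
  obtain ⟨hE, hE0⟩ := hT U ω G H A1 A2 B1 B2 s g L D
  have hUf := D.Uf
  have := fin_U hUf
  have hsb : ∀ a, |s a| ≤ L := fun a => by rw [abs_of_nonneg (D.s0 a)]; exact D.sL a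
  set E : ℕ → ℝ := fun n => eN U A1 A2 B1 B2 n with hEdef
  set a : ℕ → ℝ := fun n => aN U G H n with hadef
  set δ : ℝ := Ds U ω G H s g with hδ
  have iA1 := fun n => mo_int hUf D.A1m D.A1b n
  have iA2 := fun n => mo_int hUf D.A2m D.A2b n
  have iB1 := fun n => mo_int hUf D.B1m D.B1b n
  have iB2 := fun n => mo_int hUf D.B2m D.B2b n
  have iG := fun n => mo_int hUf D.Gm D.Gb n
  have iH := fun n => mo_int hUf D.Hm D.Hb n
  have eE : ∀ n, E n = eo U A1 A2 n + eo U B1 B2 n := by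
    intro n
    exact integral_add ((iA1 n).add (iA2 n)) ((iB1 n).add (iB2 n))
  have ea : ∀ n, a n = mo U G n + mo U H n := fun n => integral_add (iG n) (iH n)
  have hτ : ∀ n, 0 ≤ mo U (tr A1 A2) n + mo U (tr B1 B2) n := fun n =>
    add_nonneg (integral_nonneg fun x => by positivity) (integral_nonneg fun x => by positivity)
  have n1 : 0 ≤ Real.sqrt (S2 U G) := Real.sqrt_nonneg _
  have n2 : 0 ≤ Real.sqrt (S2 U H) := Real.sqrt_nonneg _
  have n3 : 0 ≤ Real.sqrt (S2 U s) := Real.sqrt_nonneg _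
  have n4 : 0 ≤ Real.sqrt (S2 U g) := Real.sqrt_nonneg _
  have hδ1 : |ω| * (Real.sqrt (S2 U H) * Real.sqrt (S2 U s)) +
      |ω| * (Real.sqrt (S2 U G) * Real.sqrt (S2 U s)) ≤ δ := by
    rw [hδ, Ds]
    nlinarith [mul_nonneg n3 n4, mul_nonneg n3 n3]
  have low : ∀ n, ω ^ 2 * a n ≤ mo U (lo A1 A2) n + mo U (lo B1 B2) n + 4 * Real.pi * δ := by
    intro n
    have h1 := lower D.Um hUf D.A1m D.A2m D.A1b D.A2b D.Hm D.Hb D.sm hsb (ω := ω) D.eA n
    have h2 := lower D.Um hUf D.B1m D.B2m D.B1b D.B2b D.Gm D.Gb D.sm hsb (ω := -ω) (by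
      filter_upwards [D.eB] with y hy
      have e : lo B1 B2 y + -ω * G y = (e y.2).re * B1 y + (e y.2).im * B2 y - ω * G y := by
        rw [lo]; ring
      rw [e]
      exact hy) n
    rw [neg_sq, abs_neg] at h2
    rw [ea]
    have hp : 0 ≤ 4 * Real.pi := by positivity
    have h3 := mul_le_mul_of_nonneg_left hδ1 hp
    linarith
  constructor
  · intro n
    have h1 := par_succ hUf D.A1m D.A2m D.A1b D.A2b D.jA n
    have h2 := par_succ hUf D.B1m D.B2m D.B1b D.B2b D.jB n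
    have h3 := low (n + 1)
    have h4 : E n + 2 * E (n + 1) + E (n + 2) - 4 * ω ^ 2 * a (n + 1) ≤ C4 * δ :=
      (abs_le.1 (hE n)).2
    have h5 := hτ (n + 1)
    have e1 := eE n
    have e2 := eE (n + 2)
    show -((C4 + 16 * Real.pi) * δ) ≤ E n - 2 * E (n + 1) + E (n + 2)
    linarith
  · have h1 := par_zero hUf D.A1m D.A2m D.A1b D.A2b D.jA
    have h2 := par_zero hUf D.B1m D.B2m D.B1b D.B2b D.jB
    have h3 := low 0
    have h4 : 2 * E 0 + 2 * E 1 - 4 * ω ^ 2 * a 0 ≤ C4 * δ := (abs_le.1 hE0).2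
    have h5 := hτ 0
    have e1 := eE 1
    show -((C4 + 16 * Real.pi) * δ) ≤ 2 * E 1 - 2 * E 0
    linarith

end H36.WM.Conv
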